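import Pool.Agent.R812.Cont
import Pool.Agent.Helper162.Arc.PA

/-!
# Products with a hereditarily indecomposable factor are not lambda-connected
-/

set_option autoImplicit false

open Set Topology

namespace Pool.Agent.Results.MP_3d59a4_gt.IndecomposableFactor

/-- A subcontinuum of a (metric) space: a nonempty compact connected subset. -/
def IsSubcontinuum {X : Type} [TopologicalSpace X] (K : Set X) : Prop :=
  IsCompact K ∧ IsConnected K

/-- `K` is decomposable: it is the union of two subcontinua, both different from `K`. -/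
def IsDecomposable {X : Type} [TopologicalSpace X] (K : Set X) : Prop :=
  ∃ A B : Set X, IsSubcontinuum A ∧ IsSubcontinuum B ∧ A ≠ K ∧ B ≠ K ∧ A ∪ B = K

/-- `K` is hereditarily decomposable: every nondegenerate subcontinuum of `K` is decomposable. -/
def HereditarilyDecomposable {X : Type} [TopologicalSpace X] (K : Set X) : Prop :=
  ∀ L ⊆ K, IsSubcontinuum L → L.Nontrivial → IsDecomposable L

/-- `X` is hereditarily indecomposable: no subcontinuum of `X` is decomposable. -/
def HereditarilyIndecomposable (X : Type) [TopologicalSpace X] : Prop :=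
  ∀ K : Set X, IsSubcontinuum K → ¬ IsDecomposable K

/-- `X` is lambda-connected: any two points of `X` lie in a hereditarily decomposable
subcontinuum of `X`. -/
def LambdaConnected (X : Type) [TopologicalSpace X] : Prop :=
  ∀ p q : X, ∃ K : Set X, IsSubcontinuum K ∧ HereditarilyDecomposable K ∧ p ∈ K ∧ q ∈ K

/-- A continuous image of a hereditarily decomposable subcontinuum is degenerate or
decomposable. -/
theorem image_decomposable {X Z : Type} [TopologicalSpace X] [CompactSpace X] [T2Space X]
    [TopologicalSpace Z] [T1Space Z] {f : X → Z} (hf : Continuous f) {K : Set X}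
    (hK : IsSubcontinuum K) (hd : HereditarilyDecomposable K) (hn : (f '' K).Nontrivial) :
    IsDecomposable (f '' K) := by
  classical
  obtain ⟨E, hEK, hE⟩ := zorn_superset_nonempty
    {E : Set X | IsSubcontinuum E ∧ E ⊆ K ∧ f '' E = f '' K} (by
      intro c hc hchain hne
      have hsub : Pool.Agent.R812.Cont.IsSubcontinuum (⋂₀ c) :=
        Pool.Agent.R812.Cont.IsSubcontinuum.sInter hne hchain fun L hL => (hc hL).1
      refine ⟨⋂₀ c, ⟨hsub, ?_, ?_⟩, fun L hL => sInter_subset_of_mem hL⟩
      · obtain ⟨L, hL⟩ := hne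
        exact (sInter_subset_of_mem hL).trans (hc hL).2.1
      · apply subset_antisymm
        · obtain ⟨L, hL⟩ := hne
          exact image_mono ((sInter_subset_of_mem hL).trans (hc hL).2.1)
        · intro z hz
          have hneF : Nonempty c := hne.to_subtype
          have := IsCompact.nonempty_iInter_of_directed_nonempty_isCompact_isClosed
            (fun i : c => (i : Set X) ∩ f ⁻¹' {z})
            (fun i j => by
              rcases hchain.total i.2 j.2 with h | h
              · exact ⟨i, subset_rfl, inter_subset_inter_left _ h⟩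
              · exact ⟨j, inter_subset_inter_left _ h, subset_rfl⟩)
            (fun i => by
              have h1 : z ∈ f '' (i : Set X) := by rw [(hc i.2).2.2]; exact hz
              obtain ⟨x, hx, hxz⟩ := h1
              exact ⟨x, hx, hxz⟩)
            (fun i => (hc i.2).1.1.inter_right (isClosed_singleton.preimage hf))
            (fun i => (hc i.2).1.1.isClosed.inter (isClosed_singleton.preimage hf))
          obtain ⟨x, hx⟩ := this
          rw [mem_iInter] at hx
          exact ⟨x, fun L hL => (hx ⟨L, hL⟩).1, (hx ⟨_, hneF.some.2⟩).2⟩) K ⟨hK, subset_rfl, rfl⟩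
  obtain ⟨hE1, hE2, hE3⟩ := hE.prop
  have hEn : E.Nontrivial := by
    rw [← hE3] at hn
    obtain ⟨a, ⟨x, hx, rfl⟩, b, ⟨y, hy, rfl⟩, hab⟩ := hn
    exact ⟨x, hx, y, hy, fun h => hab (by rw [h])⟩
  obtain ⟨A, B, hA, hB, hAE, hBE, hAB⟩ := hd E hE2 hE1 hEn
  have hcA : IsSubcontinuum (f '' A) := ⟨hA.1.image hf, hA.2.image f hf.continuousOn⟩
  have hcB : IsSubcontinuum (f '' B) := ⟨hB.1.image hf, hB.2.image f hf.continuousOn⟩
  have hAsub : A ⊆ E := hAB ▸ subset_union_left
  have hBsub : B ⊆ E := hAB ▸ subset_union_right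
  refine ⟨f '' A, f '' B, hcA, hcB, ?_, ?_, ?_⟩
  · intro h
    exact hAE (hE.eq_of_subset ⟨hA, hAsub.trans hE2, h⟩ hAsub)
  · intro h
    exact hBE (hE.eq_of_subset ⟨hB, hBsub.trans hE2, h⟩ hBsub)
  · rw [← image_union, hAB, hE3]

/-- Negative answer to the question. If `X` is a hereditarily indecomposable continuum and `Y` is
any continuum, then two points of `X × Y` with different first coordinates never lie in a common
hereditarily decomposable subcontinuum of `X × Y`. There is a nondegenerate hereditarily
indecomposable continuum `X`, and for this `X` and every continuum `Y` the product `X × Y` is not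
lambda-connected. -/
theorem result :
    (∀ (X Y : Type) [MetricSpace X] [CompactSpace X] [ConnectedSpace X]
      [MetricSpace Y] [CompactSpace Y] [ConnectedSpace Y], HereditarilyIndecomposable X →
      ∀ p q : X × Y, p.1 ≠ q.1 → ¬ ∃ K : Set (X × Y), IsSubcontinuum K ∧
        HereditarilyDecomposable K ∧ p ∈ K ∧ q ∈ K) ∧
    (∃ (X : Type) (_ : MetricSpace X), CompactSpace X ∧ ConnectedSpace X ∧ Nontrivial X ∧
      HereditarilyIndecomposable X ∧
      ∀ (Y : Type) [MetricSpace Y] [CompactSpace Y] [ConnectedSpace Y],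
        ¬ LambdaConnected (X × Y)) := by
  have key : ∀ (X Y : Type) [MetricSpace X] [CompactSpace X] [ConnectedSpace X]
      [MetricSpace Y] [CompactSpace Y] [ConnectedSpace Y], HereditarilyIndecomposable X →
      ∀ p q : X × Y, p.1 ≠ q.1 → ¬ ∃ K : Set (X × Y), IsSubcontinuum K ∧
        HereditarilyDecomposable K ∧ p ∈ K ∧ q ∈ K := by
    rintro X Y _ _ _ _ _ _ hX p q hpq ⟨K, hK, hd, hp, hq⟩
    have hn : (Prod.fst '' K).Nontrivial := ⟨p.1, ⟨p, hp, rfl⟩, q.1, ⟨q, hq, rfl⟩, hpq⟩
    exact hX _ ⟨hK.1.image continuous_fst, hK.2.image _ continuous_fst.continuousOn⟩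
      (image_decomposable continuous_fst hK hd hn)
  refine ⟨key, Pool.Agent.Helper162.Arc.PA,
    TopologicalSpace.metrizableSpaceMetric Pool.Agent.Helper162.Arc.PA, inferInstance,
    inferInstance, inferInstance, ?_⟩
  have hHI : HereditarilyIndecomposable Pool.Agent.Helper162.Arc.PA := by
    rintro K hK ⟨A, B, hA, hB, hAK, hBK, hAB⟩
    exact Pool.Agent.Helper162.Arc.pa_hi hK ⟨A, B, hA, hB, hAB ▸ subset_union_left,
      hAB ▸ subset_union_right, hAK, hBK, hAB⟩
  refine ⟨hHI, ?_⟩
  intro Y _ _ _ hL
  obtain ⟨a, b, hab⟩ := exists_pair_ne Pool.Agent.Helper162.Arc.PA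
  obtain ⟨y⟩ : Nonempty Y := inferInstance
  obtain ⟨K, hK, hd, hp, hq⟩ := hL (a, y) (b, y)
  let _ : MetricSpace Pool.Agent.Helper162.Arc.PA :=
    TopologicalSpace.metrizableSpaceMetric Pool.Agent.Helper162.Arc.PA
  exact key Pool.Agent.Helper162.Arc.PA Y hHI (a, y) (b, y) hab ⟨K, hK, hd, hp, hq⟩

end Pool.Agent.Results.MP_3d59a4_gt.IndecomposableFactor
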